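import Pool.Agent.Helper73.Tor.Fin

/-!
The negated form of Q1 over `F = ℚ`, for the simply connected semisimple group
`G = SL_1(ℍ) × SL_1(ℍ)`, where `ℍ` is the algebra of Hamilton quaternions over `ℚ`.

The tori are `T_i = {(t, t ^ k_i) : t ∈ S_i}`, where `S_i` is the norm one group of
`ℚ(δ_i i δ_i⁻¹)` for integral quaternions `δ_i` whose norms are different primes `≡ 3` modulo `4`,
and where `k_i` is a suitable multiple of `i + 1`. The `k_i` kill the (finite) part of `T_i(𝔸)`
which acts on `G(𝔸) / G(ℚ)U`, for a certain open subgroup `U` of `G(𝔸)`.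
-/

open scoped Topology
open MeasureTheory

namespace Pool.Agent.Results.MP_15d1c0_an.TorusOrbitsDisproof

open Pool.Agent.Helper73.Tor

/-- sanity check: `X` is compact -/
theorem compactSpace_X : CompactSpace X := inferInstance

/-- sanity check: `X` is Hausdorff -/
theorem t2Space_X : T2Space X := inferInstance

/-- sanity check: `G(𝔸)` acts continuously on `X` (so that the push-forward of a measure is the
usual one) -/
theorem continuous_action (x : G Adele) : Continuous (fun y : X => x • y) := by
  have : Continuous (fun y : G Adele ⧸ ratPts => x • y) := continuous_const_smul _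
  exact this

/-- sanity check: the map from `T(𝔸) / T(ℚ)` to `X` is continuous -/
theorem continuous_orbit (T : AlgSubgroup) (g : G Adele) : Continuous (T.orbitMap g) :=
  continuous_orbitMap T g

/-- sanity check: the image of the map from `T(𝔸) / T(ℚ)` to `X` is the set `g[T(𝔸)]` -/
theorem range_orbitMap (T : AlgSubgroup) (g : G Adele) : Set.range (T.orbitMap g) = T.orbit g := by
  ext x
  constructor
  · rintro ⟨q, rfl⟩
    obtain ⟨t, rfl⟩ := QuotientGroup.mk_surjective q
    exact ⟨t, t.2, rfl⟩
  · rintro ⟨t, ht, rfl⟩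
    exact ⟨toQuot T ⟨t, ht⟩, rfl⟩

/-- The disproof: there are anisotropic `ℚ`-tori `T i` in `G`, with uniform measures `μ i` on the
adelic torus subsets `[T i (𝔸)]`, such that the sequence `μ` has a weak-* limit (a probability
measure), no weak-* limit is invariant under `G(𝔸)`, and for every proper `ℚ`-subgroup `H` and
every sequence `h i` in `G(𝔸)`, bounded or not, `[T i (𝔸)] ⊆ h i [H(𝔸)]` holds for finitely
many `i` only. -/
theorem result : ∃ (T : ℕ → AlgSubgroup) (μ : ℕ → Measure X),
    (∀ i, (T i).IsTorus ∧ (T i).IsAnisotropic ∧ IsProbabilityMeasure (μ i) ∧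
      IsUniform (T i) 1 (μ i)) ∧
    (∃ ν : Measure X, IsProbabilityMeasure ν ∧ IsWeakLimit μ ν) ∧
    (∀ ν : Measure X, IsWeakLimit μ ν → ∃ x : G Adele, ν.map (fun y => x • y) ≠ ν) ∧
    ∀ (h : ℕ → G Adele) (H : AlgSubgroup), H.IsProper →
      {i | (T i).orbit 1 ⊆ H.orbit (h i)}.Finite :=
  counterexample

end Pool.Agent.Results.MP_15d1c0_an.TorusOrbitsDisproof
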